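import Pool.Agent.Helper18.FaceLattice

/-!
# A seven-dimensional polytope without vertex-facet assignment which is not a free join

Notation: `IsPolytope`, `HasVertexFacetAssignment`, `IsFreeJoin` are defined in
`Pool/Agent/Helper18/FaceLattice.lean`.

The polytope, in coordinates `(s, a, b, u, p, q, r)`, is given by
`|a| ≤ 2 (1 - s)`, `|b| ≤ 2 (1 - s)`, `|a| + |b| ≤ 3 (1 - s)`, `|p| ≤ u`, `|q| + |r| ≤ 1 - u`,
`|p| + |q| + |r| ≤ s`.
It has 22 vertices and 22 facets; the face `s = 0` (an octagonal prism) has 16 vertices and lies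
in 8 facets.
-/

set_option autoImplicit false

open Set Pool.Agent.Helper18.FaceLattice

namespace Pool.Agent.Results.MP_7ca032_co.NonJoinPolytope

/-- Left-hand sides of the 22 facet inequalities. -/
def A : Fin 22 → Fin 7 → ℤ :=
  ![![2, 1, 0, 0, 0, 0, 0],
    ![2, -1, 0, 0, 0, 0, 0],
    ![2, 0, 1, 0, 0, 0, 0],
    ![2, 0, -1, 0, 0, 0, 0],
    ![3, 1, 1, 0, 0, 0, 0],
    ![3, 1, -1, 0, 0, 0, 0],
    ![3, -1, 1, 0, 0, 0, 0],
    ![3, -1, -1, 0, 0, 0, 0],
    ![0, 0, 0, -1, 1, 0, 0],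
    ![0, 0, 0, -1, -1, 0, 0],
    ![0, 0, 0, 1, 0, 1, 1],
    ![0, 0, 0, 1, 0, 1, -1],
    ![0, 0, 0, 1, 0, -1, 1],
    ![0, 0, 0, 1, 0, -1, -1],
    ![-1, 0, 0, 0, 1, 1, 1],
    ![-1, 0, 0, 0, 1, 1, -1],
    ![-1, 0, 0, 0, 1, -1, 1],
    ![-1, 0, 0, 0, 1, -1, -1],
    ![-1, 0, 0, 0, -1, 1, 1],
    ![-1, 0, 0, 0, -1, 1, -1],
    ![-1, 0, 0, 0, -1, -1, 1],
    ![-1, 0, 0, 0, -1, -1, -1]]

/-- Right-hand sides of the 22 facet inequalities. -/
def B : Fin 22 → ℤ :=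
  ![2, 2, 2, 2, 3, 3, 3, 3, 0, 0, 1, 1, 1, 1, 0, 0, 0, 0, 0, 0, 0, 0]

/-- The 22 vertices. -/
def V : Fin 22 → Fin 7 → ℤ :=
  ![![0, 2, 1, 0, 0, 0, 0],
    ![0, 2, 1, 1, 0, 0, 0],
    ![0, 1, 2, 0, 0, 0, 0],
    ![0, 1, 2, 1, 0, 0, 0],
    ![0, -1, 2, 0, 0, 0, 0],
    ![0, -1, 2, 1, 0, 0, 0],
    ![0, -2, 1, 0, 0, 0, 0],
    ![0, -2, 1, 1, 0, 0, 0],
    ![0, -2, -1, 0, 0, 0, 0],
    ![0, -2, -1, 1, 0, 0, 0],
    ![0, -1, -2, 0, 0, 0, 0],
    ![0, -1, -2, 1, 0, 0, 0],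
    ![0, 1, -2, 0, 0, 0, 0],
    ![0, 1, -2, 1, 0, 0, 0],
    ![0, 2, -1, 0, 0, 0, 0],
    ![0, 2, -1, 1, 0, 0, 0],
    ![1, 0, 0, 1, 1, 0, 0],
    ![1, 0, 0, 1, -1, 0, 0],
    ![1, 0, 0, 0, 0, 1, 0],
    ![1, 0, 0, 0, 0, -1, 0],
    ![1, 0, 0, 0, 0, 0, 1],
    ![1, 0, 0, 0, 0, 0, -1]]

/-- Functionals exposing the vertices. -/
def L : Fin 22 → Fin 7 → ℤ :=
  ![![-3, 2, 1, -2, 0, 0, 0],
    ![-3, 2, 1, 4, 0, 0, 0],
    ![-3, 1, 2, -2, 0, 0, 0],
    ![-3, 1, 2, 4, 0, 0, 0],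
    ![-3, -1, 2, -2, 0, 0, 0],
    ![-3, -1, 2, 4, 0, 0, 0],
    ![-3, -2, 1, -2, 0, 0, 0],
    ![-3, -2, 1, 4, 0, 0, 0],
    ![-3, -2, -1, -2, 0, 0, 0],
    ![-3, -2, -1, 4, 0, 0, 0],
    ![-3, -1, -2, -2, 0, 0, 0],
    ![-3, -1, -2, 4, 0, 0, 0],
    ![-3, 1, -2, -2, 0, 0, 0],
    ![-3, 1, -2, 4, 0, 0, 0],
    ![-3, 2, -1, -2, 0, 0, 0],
    ![-3, 2, -1, 4, 0, 0, 0],
    ![16, 0, 0, 3, 5, 0, 0],
    ![16, 0, 0, 3, -5, 0, 0],
    ![16, 0, 0, 0, 0, 6, 0],
    ![16, 0, 0, 0, 0, -6, 0],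
    ![16, 0, 0, 0, 0, 0, 6],
    ![16, 0, 0, 0, 0, 0, -6]]

/-- Integer dot product. -/
def dot (x y : Fin 7 → ℤ) : ℤ :=
  x 0 * y 0 + x 1 * y 1 + x 2 * y 2 + x 3 * y 3 + x 4 * y 4 + x 5 * y 5 + x 6 * y 6

/-- The linear functional with integer coefficients `c`. -/
noncomputable def fn (c : Fin 7 → ℤ) : (Fin 7 → ℝ) →ₗ[ℝ] ℝ :=
  ∑ j, (c j : ℝ) • LinearMap.proj j

lemma fn_apply (c : Fin 7 → ℤ) (x : Fin 7 → ℝ) : fn c x =
    c 0 * x 0 + c 1 * x 1 + c 2 * x 2 + c 3 * x 3 + c 4 * x 4 + c 5 * x 5 + c 6 * x 6 := by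
  simp [fn, Fin.sum_univ_succ]
  ring_nf

/-- The real vector with integer coordinates `c`. -/
def vec (c : Fin 7 → ℤ) : Fin 7 → ℝ := fun j => (c j : ℝ)

lemma fn_vec (c x : Fin 7 → ℤ) : fn c (vec x) = (dot c x : ℝ) := by
  rw [fn_apply]
  simp [vec, dot]

noncomputable def gR (i : Fin 22) : (Fin 7 → ℝ) →ₗ[ℝ] ℝ := fn (A i)
noncomputable def bR (i : Fin 22) : ℝ := (B i : ℝ)
noncomputable def vR (k : Fin 22) : Fin 7 → ℝ := vec (V k)

lemma dot_le : ∀ i k : Fin 22, dot (A i) (V k) ≤ B i := by decide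

lemma dot_L_lt : ∀ k j : Fin 22, j ≠ k → dot (L k) (V j) < dot (L k) (V k) := by decide

/-- The polytope. -/
noncomputable def P : Set (Fin 7 → ℝ) := convexHull ℝ (range vR)

/-- A point with given coordinates. -/
def pt (s a b u p q r : ℝ) : Fin 7 → ℝ := ![s, a, b, u, p, q, r]

lemma eq_pt (x : Fin 7 → ℝ) : x = pt (x 0) (x 1) (x 2) (x 3) (x 4) (x 5) (x 6) := by
  ext j; fin_cases j <;> rfl

lemma pt_mem_of_mem {C : Set (Fin 7 → ℝ)} (hC : Convex ℝ C) {s a b u p q r s' a' b' u' p' q' r' : ℝ}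
    (h : pt s a b u p q r ∈ C) (h' : pt s' a' b' u' p' q' r' ∈ C) {t : ℝ} (h0 : 0 ≤ t)
    (h1 : t ≤ 1) {S A B U P Q R : ℝ} (eS : S = (1 - t) * s + t * s')
    (eA : A = (1 - t) * a + t * a') (eB : B = (1 - t) * b + t * b')
    (eU : U = (1 - t) * u + t * u') (eP : P = (1 - t) * p + t * p')
    (eQ : Q = (1 - t) * q + t * q') (eR : R = (1 - t) * r + t * r') :
    pt S A B U P Q R ∈ C := by
  have := hC h h' (sub_nonneg.mpr h1) h0 (by ring)
  convert this using 1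
  subst eS eA eB eU eP eQ eR
  ext j; fin_cases j <;> simp [pt]

/-- A real number in a segment, as a convex combination parameter. -/
lemma exists_param {x y z : ℝ} (hxy : x ≤ y) (hyz : y ≤ z) :
    ∃ t : ℝ, 0 ≤ t ∧ t ≤ 1 ∧ y = (1 - t) * x + t * z := by
  rcases eq_or_lt_of_le (hxy.trans hyz) with h | h
  · exact ⟨0, le_rfl, zero_le_one, by simp; linarith⟩
  · refine ⟨(y - x) / (z - x), div_nonneg (by linarith) (by linarith), ?_, ?_⟩
    · rw [div_le_one (by linarith)]; linarith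
    · field_simp
      ring

lemma vR_mem (k : Fin 22) : vR k ∈ P := subset_convexHull ℝ _ ⟨k, rfl⟩

lemma vR_mem' (k : Fin 22) {s a b u p q r : ℝ} (h : vR k = pt s a b u p q r) :
    pt s a b u p q r ∈ P := h ▸ vR_mem k

lemma m0 : pt 0 2 1 0 0 0 0 ∈ P := vR_mem' 0 (by ext j; fin_cases j <;> simp [vR, vec, V, pt])
lemma m1 : pt 0 2 1 1 0 0 0 ∈ P := vR_mem' 1 (by ext j; fin_cases j <;> simp [vR, vec, V, pt])
lemma m2 : pt 0 1 2 0 0 0 0 ∈ P := vR_mem' 2 (by ext j; fin_cases j <;> simp [vR, vec, V, pt])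
lemma m3 : pt 0 1 2 1 0 0 0 ∈ P := vR_mem' 3 (by ext j; fin_cases j <;> simp [vR, vec, V, pt])
lemma m4 : pt 0 (-1) 2 0 0 0 0 ∈ P := vR_mem' 4 (by ext j; fin_cases j <;> simp [vR, vec, V, pt])
lemma m5 : pt 0 (-1) 2 1 0 0 0 ∈ P := vR_mem' 5 (by ext j; fin_cases j <;> simp [vR, vec, V, pt])
lemma m6 : pt 0 (-2) 1 0 0 0 0 ∈ P := vR_mem' 6 (by ext j; fin_cases j <;> simp [vR, vec, V, pt])
lemma m7 : pt 0 (-2) 1 1 0 0 0 ∈ P := vR_mem' 7 (by ext j; fin_cases j <;> simp [vR, vec, V, pt])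
lemma m8 : pt 0 (-2) (-1) 0 0 0 0 ∈ P :=
  vR_mem' 8 (by ext j; fin_cases j <;> simp [vR, vec, V, pt])
lemma m9 : pt 0 (-2) (-1) 1 0 0 0 ∈ P :=
  vR_mem' 9 (by ext j; fin_cases j <;> simp [vR, vec, V, pt])
lemma m10 : pt 0 (-1) (-2) 0 0 0 0 ∈ P :=
  vR_mem' 10 (by ext j; fin_cases j <;> simp [vR, vec, V, pt])
lemma m11 : pt 0 (-1) (-2) 1 0 0 0 ∈ P :=
  vR_mem' 11 (by ext j; fin_cases j <;> simp [vR, vec, V, pt])
lemma m12 : pt 0 1 (-2) 0 0 0 0 ∈ P :=
  vR_mem' 12 (by ext j; fin_cases j <;> simp [vR, vec, V, pt])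
lemma m13 : pt 0 1 (-2) 1 0 0 0 ∈ P :=
  vR_mem' 13 (by ext j; fin_cases j <;> simp [vR, vec, V, pt])
lemma m14 : pt 0 2 (-1) 0 0 0 0 ∈ P :=
  vR_mem' 14 (by ext j; fin_cases j <;> simp [vR, vec, V, pt])
lemma m15 : pt 0 2 (-1) 1 0 0 0 ∈ P :=
  vR_mem' 15 (by ext j; fin_cases j <;> simp [vR, vec, V, pt])
lemma m16 : pt 1 0 0 1 1 0 0 ∈ P :=
  vR_mem' 16 (by ext j; fin_cases j <;> simp [vR, vec, V, pt])
lemma m17 : pt 1 0 0 1 (-1) 0 0 ∈ P :=
  vR_mem' 17 (by ext j; fin_cases j <;> simp [vR, vec, V, pt])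
lemma m18 : pt 1 0 0 0 0 1 0 ∈ P :=
  vR_mem' 18 (by ext j; fin_cases j <;> simp [vR, vec, V, pt])
lemma m19 : pt 1 0 0 0 0 (-1) 0 ∈ P :=
  vR_mem' 19 (by ext j; fin_cases j <;> simp [vR, vec, V, pt])
lemma m20 : pt 1 0 0 0 0 0 1 ∈ P :=
  vR_mem' 20 (by ext j; fin_cases j <;> simp [vR, vec, V, pt])
lemma m21 : pt 1 0 0 0 0 0 (-1) ∈ P :=
  vR_mem' 21 (by ext j; fin_cases j <;> simp [vR, vec, V, pt])

lemma convex_P : Convex ℝ P := convex_convexHull ℝ _

/-- corners of the prism, arbitrary height -/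
lemma corner {a b u : ℝ} (h0 : pt 0 a b 0 0 0 0 ∈ P) (h1 : pt 0 a b 1 0 0 0 ∈ P)
    (hu0 : 0 ≤ u) (hu1 : u ≤ 1) : pt 0 a b u 0 0 0 ∈ P :=
  pt_mem_of_mem convex_P h0 h1 hu0 hu1 (by ring) (by ring) (by ring) (by ring) (by ring) (by ring)
    (by ring)

lemma rect1 {a b u : ℝ} (hu0 : 0 ≤ u) (hu1 : u ≤ 1) (ha0 : -2 ≤ a) (ha1 : a ≤ 2) (hb0 : -1 ≤ b)
    (hb1 : b ≤ 1) : pt 0 a b u 0 0 0 ∈ P := by
  obtain ⟨t, ht0, ht1, ht⟩ := exists_param hb0 hb1
  obtain ⟨w, hw0, hw1, hw⟩ := exists_param ha0 ha1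
  have h2 : pt 0 2 b u 0 0 0 ∈ P :=
    pt_mem_of_mem convex_P (corner m14 m15 hu0 hu1) (corner m0 m1 hu0 hu1) ht0 ht1
      (by ring) (by ring) ht (by ring) (by ring) (by ring) (by ring)
  have h3 : pt 0 (-2) b u 0 0 0 ∈ P :=
    pt_mem_of_mem convex_P (corner m8 m9 hu0 hu1) (corner m6 m7 hu0 hu1) ht0 ht1
      (by ring) (by ring) ht (by ring) (by ring) (by ring) (by ring)
  exact pt_mem_of_mem convex_P h3 h2 hw0 hw1
      (by ring) hw (by ring) (by ring) (by ring) (by ring) (by ring)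

lemma rect2 {a b u : ℝ} (hu0 : 0 ≤ u) (hu1 : u ≤ 1) (ha0 : -1 ≤ a) (ha1 : a ≤ 1) (hb0 : -2 ≤ b)
    (hb1 : b ≤ 2) : pt 0 a b u 0 0 0 ∈ P := by
  obtain ⟨t, ht0, ht1, ht⟩ := exists_param ha0 ha1
  obtain ⟨w, hw0, hw1, hw⟩ := exists_param hb0 hb1
  have h2 : pt 0 a 2 u 0 0 0 ∈ P :=
    pt_mem_of_mem convex_P (corner m4 m5 hu0 hu1) (corner m2 m3 hu0 hu1) ht0 ht1
      (by ring) ht (by ring) (by ring) (by ring) (by ring) (by ring)
  have h3 : pt 0 a (-2) u 0 0 0 ∈ P :=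
    pt_mem_of_mem convex_P (corner m10 m11 hu0 hu1) (corner m12 m13 hu0 hu1) ht0 ht1
      (by ring) ht (by ring) (by ring) (by ring) (by ring) (by ring)
  exact pt_mem_of_mem convex_P h3 h2 hw0 hw1
      (by ring) (by ring) hw (by ring) (by ring) (by ring) (by ring)

/-- The octagonal prism. -/
lemma octa {a b u : ℝ} (hu0 : 0 ≤ u) (hu1 : u ≤ 1) (ha : |a| ≤ 2) (hb : |b| ≤ 2)
    (hab : |a| + |b| ≤ 3) : pt 0 a b u 0 0 0 ∈ P := by
  rw [abs_le] at ha hb
  by_cases hb1 : |b| ≤ 1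
  · rw [abs_le] at hb1
    exact rect1 hu0 hu1 ha.1 ha.2 hb1.1 hb1.2
  by_cases ha1 : |a| ≤ 1
  · rw [abs_le] at ha1
    exact rect2 hu0 hu1 ha1.1 ha1.2 hb.1 hb.2
  push Not at hb1 ha1
  rcases lt_abs.mp ha1 with ha' | ha' <;> rcases lt_abs.mp hb1 with hb' | hb'
  · rw [abs_of_pos (by linarith), abs_of_pos (by linarith)] at hab
    obtain ⟨t, ht0, ht1, ht⟩ := exists_param (x := 1) (y := a) (z := a + b - 1)
      (by linarith) (by linarith)
    exact pt_mem_of_mem convex_P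
      (rect2 (a := 1) (b := a + b - 1) hu0 hu1 (by linarith) (by linarith) (by linarith)
        (by linarith))
      (rect1 (a := a + b - 1) (b := 1) hu0 hu1 (by linarith) (by linarith) (by linarith)
        (by linarith)) ht0 ht1
      (by ring) ht (by linear_combination (-1 : ℝ) * ht) (by ring) (by ring) (by ring) (by ring)
  · rw [abs_of_pos (by linarith), abs_of_neg (by linarith)] at hab
    obtain ⟨t, ht0, ht1, ht⟩ := exists_param (x := 1) (y := a) (z := a - b - 1)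
      (by linarith) (by linarith)
    exact pt_mem_of_mem convex_P
      (rect2 (a := 1) (b := -(a - b - 1)) hu0 hu1 (by linarith) (by linarith) (by linarith)
        (by linarith))
      (rect1 (a := a - b - 1) (b := -1) hu0 hu1 (by linarith) (by linarith) (by linarith)
        (by linarith)) ht0 ht1
      (by ring) ht (by linear_combination ht) (by ring) (by ring) (by ring) (by ring)
  · rw [abs_of_neg (by linarith), abs_of_pos (by linarith)] at hab
    obtain ⟨t, ht0, ht1, ht⟩ := exists_param (x := 1) (y := -a) (z := -a + b - 1)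
      (by linarith) (by linarith)
    exact pt_mem_of_mem convex_P
      (rect2 (a := -1) (b := -a + b - 1) hu0 hu1 (by linarith) (by linarith) (by linarith)
        (by linarith))
      (rect1 (a := -(-a + b - 1)) (b := 1) hu0 hu1 (by linarith) (by linarith) (by linarith)
        (by linarith)) ht0 ht1
      (by ring) (by linear_combination (-1 : ℝ) * ht) (by linear_combination (-1 : ℝ) * ht)
      (by ring) (by ring) (by ring) (by ring)
  · rw [abs_of_neg (by linarith), abs_of_neg (by linarith)] at hab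
    obtain ⟨t, ht0, ht1, ht⟩ := exists_param (x := 1) (y := -a) (z := -a - b - 1)
      (by linarith) (by linarith)
    exact pt_mem_of_mem convex_P
      (rect2 (a := -1) (b := -(-a - b - 1)) hu0 hu1 (by linarith) (by linarith) (by linarith)
        (by linarith))
      (rect1 (a := -(-a - b - 1)) (b := -1) hu0 hu1 (by linarith) (by linarith) (by linarith)
        (by linarith)) ht0 ht1
      (by ring) (by linear_combination (-1 : ℝ) * ht) (by linear_combination ht)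
      (by ring) (by ring) (by ring) (by ring)

/-- The segment part of the top polytope. -/
lemma segp {p : ℝ} (hp : |p| ≤ 1) : pt 1 0 0 1 p 0 0 ∈ P := by
  rw [abs_le] at hp
  obtain ⟨t, ht0, ht1, ht⟩ := exists_param hp.1 hp.2
  exact pt_mem_of_mem convex_P m17 m16 ht0 ht1
    (by ring) (by ring) (by ring) (by ring) ht (by ring) (by ring)

lemma squ_top {q : ℝ} (hq : |q| ≤ 1) : pt 1 0 0 0 0 q (1 - |q|) ∈ P := by
  rcases le_total 0 q with h | h
  · rw [abs_of_nonneg h] at hq ⊢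
    exact pt_mem_of_mem convex_P m20 m18 h hq
      (by ring) (by ring) (by ring) (by ring) (by ring) (by ring) (by ring)
  · rw [abs_of_nonpos h] at hq ⊢
    exact pt_mem_of_mem convex_P m20 m19 (t := -q) (by linarith) hq
      (by ring) (by ring) (by ring) (by ring) (by ring) (by ring) (by ring)

lemma squ_bot {q : ℝ} (hq : |q| ≤ 1) : pt 1 0 0 0 0 q (-(1 - |q|)) ∈ P := by
  rcases le_total 0 q with h | h
  · rw [abs_of_nonneg h] at hq ⊢
    exact pt_mem_of_mem convex_P m21 m18 h hq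
      (by ring) (by ring) (by ring) (by ring) (by ring) (by ring) (by ring)
  · rw [abs_of_nonpos h] at hq ⊢
    exact pt_mem_of_mem convex_P m21 m19 (t := -q) (by linarith) hq
      (by ring) (by ring) (by ring) (by ring) (by ring) (by ring) (by ring)

/-- The square part of the top polytope. -/
lemma squ {q r : ℝ} (hqr : |q| + |r| ≤ 1) : pt 1 0 0 0 0 q r ∈ P := by
  have hq : |q| ≤ 1 := by have := abs_nonneg r; linarith
  have hr : |r| ≤ 1 - |q| := by linarith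
  rw [abs_le] at hr
  obtain ⟨t, ht0, ht1, ht⟩ := exists_param hr.1 hr.2
  exact pt_mem_of_mem convex_P (squ_bot hq) (squ_top hq) ht0 ht1
    (by ring) (by ring) (by ring) (by ring) (by ring) (by ring) ht

/-- The top polytope `s = 1`. -/
lemma top {u p q r : ℝ} (hp : |p| ≤ u) (hqr : |q| + |r| ≤ 1 - u) : pt 1 0 0 u p q r ∈ P := by
  have hu0 : 0 ≤ u := (abs_nonneg p).trans hp
  have hu1 : u ≤ 1 := by have := abs_nonneg q; have := abs_nonneg r; linarith
  rcases eq_or_lt_of_le hu0 with h | h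
  · subst h
    have hp0 : p = 0 := abs_nonpos_iff.mp hp
    subst hp0
    exact squ (by linarith)
  rcases eq_or_lt_of_le hu1 with h' | h'
  · subst h'
    have hq0 : q = 0 := by
      have := abs_nonneg r; have := abs_nonneg q
      exact abs_nonpos_iff.mp (by linarith)
    have hr0 : r = 0 := by
      have := abs_nonneg r; have := abs_nonneg q
      exact abs_nonpos_iff.mp (by linarith)
    subst hq0 hr0
    exact segp hp
  have h1 : pt 1 0 0 0 0 (q / (1 - u)) (r / (1 - u)) ∈ P := by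
    apply squ
    rw [abs_div, abs_div, abs_of_pos (show (0 : ℝ) < 1 - u by linarith), ← add_div,
      div_le_one (by linarith)]
    exact hqr
  have h2 : pt 1 0 0 1 (p / u) 0 0 ∈ P := by
    apply segp
    rw [abs_div, abs_of_pos h, div_le_one h]
    exact hp
  have hne : (1 : ℝ) - u ≠ 0 := by linarith
  exact pt_mem_of_mem convex_P h1 h2 h.le hu1
    (by ring) (by ring) (by ring) (by ring) (by field_simp; ring) (by field_simp; ring)
    (by field_simp; ring)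

/-- All points satisfying the inequalities lie in the convex hull of the vertices. -/
lemma mem_P_of {s a b u p q r : ℝ} (ha : |a| ≤ 2 * (1 - s)) (hb : |b| ≤ 2 * (1 - s))
    (hab : |a| + |b| ≤ 3 * (1 - s)) (hp : |p| ≤ u) (hqr : |q| + |r| ≤ 1 - u)
    (hs : |p| + |q| + |r| ≤ s) : pt s a b u p q r ∈ P := by
  have np := abs_nonneg p
  have nq := abs_nonneg q
  have nr := abs_nonneg r
  have na := abs_nonneg a
  have nb := abs_nonneg b
  have hs1 : s ≤ 1 := by linarith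
  have hs0 : 0 ≤ s := by linarith
  rcases eq_or_lt_of_le hs0 with h | h
  · subst h
    have hp0 : p = 0 := abs_nonpos_iff.mp (by linarith)
    have hq0 : q = 0 := abs_nonpos_iff.mp (by linarith)
    have hr0 : r = 0 := abs_nonpos_iff.mp (by linarith)
    subst hp0 hq0 hr0
    exact octa (by linarith) (by linarith) (by linarith) (by linarith) (by linarith)
  rcases eq_or_lt_of_le hs1 with h' | h'
  · subst h'
    have ha0 : a = 0 := abs_nonpos_iff.mp (by linarith)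
    have hb0 : b = 0 := abs_nonpos_iff.mp (by linarith)
    subst ha0 hb0
    exact top hp hqr
  -- the height of the top part
  obtain ⟨v, hv1, hv2, hv3, hv4⟩ : ∃ v : ℝ, |p| ≤ v ∧ u - (1 - s) ≤ v ∧ v ≤ s - |q| - |r| ∧
      v ≤ u := by
    refine ⟨max |p| (u - (1 - s)), le_max_left _ _, le_max_right _ _, ?_, ?_⟩
    · apply max_le <;> linarith
    · apply max_le <;> linarith
  have hs1' : (0 : ℝ) < 1 - s := by linarith
  have e1 : pt 0 (a / (1 - s)) (b / (1 - s)) ((u - v) / (1 - s)) 0 0 0 ∈ P := by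
    apply octa
    · exact div_nonneg (by linarith) hs1'.le
    · rw [div_le_one hs1']; linarith
    · rw [abs_div, abs_of_pos hs1', div_le_iff₀ hs1']; exact ha
    · rw [abs_div, abs_of_pos hs1', div_le_iff₀ hs1']; exact hb
    · rw [abs_div, abs_div, abs_of_pos hs1', ← add_div, div_le_iff₀ hs1']; exact hab
  have e2 : pt 1 0 0 (v / s) (p / s) (q / s) (r / s) ∈ P := by
    apply top
    · rw [abs_div, abs_of_pos h]
      gcongr
    · rw [abs_div, abs_div, abs_of_pos h, ← add_div, div_le_iff₀ h]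
      have : (1 - v / s) * s = s - v := by field_simp
      rw [this]
      linarith
  have hne : (1 : ℝ) - s ≠ 0 := by linarith
  exact pt_mem_of_mem convex_P e1 e2 h.le hs1
    (by ring) (by field_simp; ring) (by field_simp; ring) (by field_simp; ring)
    (by field_simp; ring) (by field_simp; ring) (by field_simp; ring)

lemma P_subset : P ⊆ polyh gR bR := by
  apply convexHull_min _ convex_polyh
  rintro _ ⟨k, rfl⟩ i
  show fn (A i) (vec (V k)) ≤ (B i : ℝ)
  rw [fn_vec]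
  exact_mod_cast dot_le i k

lemma polyh_subset : polyh gR bR ⊆ P := by
  intro x hx
  have h : ∀ i, (A i 0 : ℝ) * x 0 + A i 1 * x 1 + A i 2 * x 2 + A i 3 * x 3 + A i 4 * x 4 +
      A i 5 * x 5 + A i 6 * x 6 ≤ B i := by
    intro i
    have := hx i
    rwa [gR, fn_apply] at this
  rw [eq_pt x]
  have h0 := h 0
  have h1 := h 1
  have h2 := h 2
  have h3 := h 3
  have h4 := h 4
  have h5 := h 5
  have h6 := h 6
  have h7 := h 7
  have h8 := h 8
  have h9 := h 9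
  have h10 := h 10
  have h11 := h 11
  have h12 := h 12
  have h13 := h 13
  have h14 := h 14
  have h15 := h 15
  have h16 := h 16
  have h17 := h 17
  have h18 := h 18
  have h19 := h 19
  have h20 := h 20
  have h21 := h 21
  simp [A, B] at h0 h1 h2 h3 h4 h5 h6 h7 h8 h9 h10 h11 h12 h13 h14 h15 h16 h17 h18 h19 h20 h21
  apply mem_P_of
  · rw [abs_le]; constructor <;> linarith
  · rw [abs_le]; constructor <;> linarith
  · rcases abs_cases (x 1) with ⟨e1, _⟩ | ⟨e1, _⟩ <;> rcases abs_cases (x 2) with ⟨e2, _⟩ | ⟨e2, _⟩ <;>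
      rw [e1, e2] <;> linarith
  · rw [abs_le]; constructor <;> linarith
  · rcases abs_cases (x 5) with ⟨e1, _⟩ | ⟨e1, _⟩ <;> rcases abs_cases (x 6) with ⟨e2, _⟩ | ⟨e2, _⟩ <;>
      rw [e1, e2] <;> linarith
  · rcases abs_cases (x 4) with ⟨e0, _⟩ | ⟨e0, _⟩ <;> rcases abs_cases (x 5) with ⟨e1, _⟩ | ⟨e1, _⟩ <;>
      rcases abs_cases (x 6) with ⟨e2, _⟩ | ⟨e2, _⟩ <;> rw [e0, e1, e2] <;> linarith

lemma P_eq : P = polyh gR bR := Subset.antisymm P_subset polyh_subset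

lemma isPolytope_P : IsPolytope P := ⟨range vR, finite_range vR, rfl⟩

/-- incidence of a vertex and a facet -/
lemma mem_tight_iff (i k : Fin 22) : vR k ∈ tight gR bR i ↔ dot (A i) (V k) = B i := by
  unfold tight
  rw [← P_eq]
  constructor
  · rintro ⟨_, h⟩
    have h' : fn (A i) (vec (V k)) = (B i : ℝ) := h
    rw [fn_vec] at h'
    exact_mod_cast h'
  · intro h
    refine ⟨vR_mem k, ?_⟩
    show fn (A i) (vec (V k)) = (B i : ℝ)
    rw [fn_vec, h]

lemma vR_injective : Function.Injective vR := by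
  intro k j h
  by_contra hne
  have h1 := dot_L_lt k j (Ne.symm hne)
  have h2 : fn (L k) (vR k) = fn (L k) (vR j) := by rw [h]
  have h3 : ((dot (L k) (V k) : ℤ) : ℝ) = (dot (L k) (V j) : ℤ) := by
    rw [← fn_vec, ← fn_vec]; exact h2
  have h4 : dot (L k) (V k) = dot (L k) (V j) := by exact_mod_cast h3
  omega

lemma isVertex_vR (k : Fin 22) : IsVertex P (vR k) := by
  refine exposed_singleton vR k (fn (L k)) fun j hj => ?_
  have hjk : j ≠ k := fun h => hj (by rw [h])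
  have := dot_L_lt k j hjk
  show fn (L k) (vec (V j)) < fn (L k) (vec (V k))
  rw [fn_vec, fn_vec]
  exact_mod_cast this

lemma exists_of_isVertex {v : Fin 7 → ℝ} (h : IsVertex P v) : ∃ k, v = vR k := by
  obtain ⟨k, hk⟩ := exists_mem_of_exposed vR h ⟨v, rfl⟩
  exact ⟨k, (mem_singleton_iff.mp hk).symm⟩

lemma tight_sub : ∀ i j : Fin 22, i ≠ j → ∃ k, dot (A i) (V k) = B i ∧ dot (A j) (V k) ≠ B j := by
  decide

lemma tight_le {i j : Fin 22} (h : tight gR bR i ⊆ tight gR bR j) : i = j := by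
  by_contra hne
  obtain ⟨k, h1, h2⟩ := tight_sub i j hne
  exact h2 ((mem_tight_iff j k).mp (h ((mem_tight_iff i k).mpr h1)))

lemma exists_not_tight : ∀ i : Fin 22, ∃ k, dot (A i) (V k) ≠ B i := by decide

lemma tight_ne (i : Fin 22) : tight gR bR i ≠ P := by
  intro h
  obtain ⟨k, hk⟩ := exists_not_tight i
  apply hk
  rw [← mem_tight_iff, h]
  exact vR_mem k

lemma exists_tight : ∀ i : Fin 22, ∃ k, dot (A i) (V k) = B i := by decide

lemma gR_ne_zero (i : Fin 22) : gR i ≠ 0 := by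
  intro h
  obtain ⟨k, hk⟩ := exists_not_tight i
  obtain ⟨j, hj⟩ := exists_tight i
  apply hk
  have h1 : fn (A i) (vec (V k)) = 0 := by
    have : gR i (vec (V k)) = 0 := by rw [h]; rfl
    exact this
  have h2 : fn (A i) (vec (V j)) = 0 := by
    have : gR i (vec (V j)) = 0 := by rw [h]; rfl
    exact this
  rw [fn_vec] at h1 h2
  have h1' : dot (A i) (V k) = 0 := by exact_mod_cast h1
  have h2' : dot (A i) (V j) = 0 := by exact_mod_cast h2
  rw [h1', ← h2', hj]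

/-! ### Dimensions -/

lemma pt_mem_polyh {s a b u p q r : ℝ} (h : pt s a b u p q r ∈ P) :
    pt s a b u p q r ∈ polyh gR bR := P_eq ▸ h

lemma origin_mem : pt 0 0 0 0 0 0 0 ∈ P := octa le_rfl zero_le_one (by simp) (by simp) (by simp)

lemma e1_mem : pt 0 1 0 0 0 0 0 ∈ P :=
  octa le_rfl zero_le_one (by simp) (by simp) (by simp)

lemma e2_mem : pt 0 0 1 0 0 0 0 ∈ P :=
  octa le_rfl zero_le_one (by simp) (by simp) (by simp)

lemma e3_mem : pt 0 0 0 1 0 0 0 ∈ P :=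
  octa zero_le_one le_rfl (by simp) (by simp) (by simp)

lemma vectorSpan_P : vectorSpan ℝ P = ⊤ := by
  rw [eq_top_iff]
  intro w _
  have d1 := vsub_mem_vectorSpan ℝ e1_mem origin_mem
  have d2 := vsub_mem_vectorSpan ℝ e2_mem origin_mem
  have d3 := vsub_mem_vectorSpan ℝ e3_mem origin_mem
  have d4 := vsub_mem_vectorSpan ℝ m16 origin_mem
  have d5 := vsub_mem_vectorSpan ℝ m17 origin_mem
  have d6 := vsub_mem_vectorSpan ℝ m18 origin_mem
  have d7 := vsub_mem_vectorSpan ℝ m20 origin_mem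
  have key : w = (w 1) • (pt 0 1 0 0 0 0 0 -ᵥ pt 0 0 0 0 0 0 0) +
      (w 2) • (pt 0 0 1 0 0 0 0 -ᵥ pt 0 0 0 0 0 0 0) +
      (w 3 - (w 0 - w 5 - w 6)) • (pt 0 0 0 1 0 0 0 -ᵥ pt 0 0 0 0 0 0 0) +
      ((w 0 - w 5 - w 6 + w 4) / 2) • (pt 1 0 0 1 1 0 0 -ᵥ pt 0 0 0 0 0 0 0) +
      ((w 0 - w 5 - w 6 - w 4) / 2) • (pt 1 0 0 1 (-1) 0 0 -ᵥ pt 0 0 0 0 0 0 0) +
      (w 5) • (pt 1 0 0 0 0 1 0 -ᵥ pt 0 0 0 0 0 0 0) +
      (w 6) • (pt 1 0 0 0 0 0 1 -ᵥ pt 0 0 0 0 0 0 0) := by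
    ext j
    fin_cases j <;> simp [pt] <;> ring
  rw [key]
  exact add_mem (add_mem (add_mem (add_mem (add_mem (add_mem (Submodule.smul_mem _ _ d1)
    (Submodule.smul_mem _ _ d2)) (Submodule.smul_mem _ _ d3)) (Submodule.smul_mem _ _ d4))
    (Submodule.smul_mem _ _ d5)) (Submodule.smul_mem _ _ d6)) (Submodule.smul_mem _ _ d7)

lemma dim_P : dim P = 7 := by
  unfold dim
  rw [vectorSpan_P, finrank_top]
  simp

lemma affineSpan_P : affineSpan ℝ P = ⊤ := by
  rw [AffineSubspace.affineSpan_eq_top_iff_vectorSpan_eq_top_of_nonempty ℝ _ _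
    ⟨_, origin_mem⟩]
  exact vectorSpan_P

/-- Coefficients of the last eight inequalities. -/
lemma last_coeffs : ∀ i : Fin 22, 14 ≤ i.val → A i 0 = -1 ∧ A i 1 = 0 ∧ A i 2 = 0 ∧ A i 3 = 0 ∧
    A i 4 * A i 4 = 1 ∧ A i 5 * A i 5 = 1 ∧ A i 6 * A i 6 = 1 ∧ B i = 0 := by decide

lemma last_points : ∀ i : Fin 22, 14 ≤ i.val →
    (A i 4 = 1 ∨ A i 4 = -1) ∧ (A i 5 = 1 ∨ A i 5 = -1) ∧ (A i 6 = 1 ∨ A i 6 = -1) := by decide

lemma dim_last (i : Fin 22) (hi : 14 ≤ i.val) : dim (tight gR bR i) = 6 := by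
  obtain ⟨c0, c1, c2, c3, c4, c5, c6, cB⟩ := last_coeffs i hi
  obtain ⟨q4, q5, q6⟩ := last_points i hi
  set x4 : ℝ := (A i 4 : ℝ) with hx4
  set x5 : ℝ := (A i 5 : ℝ) with hx5
  set x6 : ℝ := (A i 6 : ℝ) with hx6
  have r4 : x4 * x4 = 1 := by rw [hx4]; exact_mod_cast c4
  have r5 : x5 * x5 = 1 := by rw [hx5]; exact_mod_cast c5
  have r6 : x6 * x6 = 1 := by rw [hx6]; exact_mod_cast c6
  have hfn : ∀ x : Fin 7 → ℝ, gR i x = - x 0 + x4 * x 4 + x5 * x 5 + x6 * x 6 := by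
    intro x
    rw [gR, fn_apply, c0, c1, c2, c3]
    push_cast
    ring
  have hb : bR i = 0 := by rw [bR, cB]; simp
  have hmem : ∀ x ∈ P, - x 0 + x4 * x 4 + x5 * x 5 + x6 * x 6 = 0 → x ∈ tight gR bR i := by
    intro x hx h
    refine ⟨P_eq ▸ hx, ?_⟩
    rw [hfn, hb]; exact h
  have n0 : pt 0 0 0 0 0 0 0 ∈ tight gR bR i := hmem _ origin_mem (by simp [pt])
  have n1 : pt 0 1 0 0 0 0 0 ∈ tight gR bR i := hmem _ e1_mem (by simp [pt])
  have n2 : pt 0 0 1 0 0 0 0 ∈ tight gR bR i := hmem _ e2_mem (by simp [pt])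
  have n3 : pt 0 0 0 1 0 0 0 ∈ tight gR bR i := hmem _ e3_mem (by simp [pt])
  have n4 : pt 1 0 0 1 x4 0 0 ∈ tight gR bR i := by
    apply hmem
    · rcases q4 with h | h
      · have : x4 = 1 := by rw [hx4, h]; simp
        rw [this]; exact m16
      · have : x4 = -1 := by rw [hx4, h]; simp
        rw [this]; exact m17
    · simp [pt, r4]
  have n5 : pt 1 0 0 0 0 x5 0 ∈ tight gR bR i := by
    apply hmem
    · rcases q5 with h | h
      · have : x5 = 1 := by rw [hx5, h]; simp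
        rw [this]; exact m18
      · have : x5 = -1 := by rw [hx5, h]; simp
        rw [this]; exact m19
    · simp [pt, r5]
  have n6 : pt 1 0 0 0 0 0 x6 ∈ tight gR bR i := by
    apply hmem
    · rcases q6 with h | h
      · have : x6 = 1 := by rw [hx6, h]; simp
        rw [this]; exact m20
      · have : x6 = -1 := by rw [hx6, h]; simp
        rw [this]; exact m21
    · simp [pt, r6]
  have hspan : vectorSpan ℝ (tight gR bR i) = LinearMap.ker (gR i) := by
    apply le_antisymm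
    · rw [vectorSpan_def, Submodule.span_le]
      rintro _ ⟨x, hx, y, hy, rfl⟩
      simp only [SetLike.mem_coe, LinearMap.mem_ker, vsub_eq_sub, map_sub]
      rw [hx.2, hy.2, sub_self]
    · intro w hw
      rw [LinearMap.mem_ker, hfn] at hw
      have d1 := vsub_mem_vectorSpan ℝ n1 n0
      have d2 := vsub_mem_vectorSpan ℝ n2 n0
      have d3 := vsub_mem_vectorSpan ℝ n3 n0
      have d4 := vsub_mem_vectorSpan ℝ n4 n0
      have d5 := vsub_mem_vectorSpan ℝ n5 n0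
      have d6 := vsub_mem_vectorSpan ℝ n6 n0
      have key : w = (w 1) • (pt 0 1 0 0 0 0 0 -ᵥ pt 0 0 0 0 0 0 0) +
          (w 2) • (pt 0 0 1 0 0 0 0 -ᵥ pt 0 0 0 0 0 0 0) +
          (w 3 - x4 * w 4) • (pt 0 0 0 1 0 0 0 -ᵥ pt 0 0 0 0 0 0 0) +
          (x4 * w 4) • (pt 1 0 0 1 x4 0 0 -ᵥ pt 0 0 0 0 0 0 0) +
          (x5 * w 5) • (pt 1 0 0 0 0 x5 0 -ᵥ pt 0 0 0 0 0 0 0) +
          (x6 * w 6) • (pt 1 0 0 0 0 0 x6 -ᵥ pt 0 0 0 0 0 0 0) := by
        ext j
        fin_cases j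
        · simp [pt]; linarith
        · simp [pt]
        · simp [pt]
        · simp [pt]
        · simp [pt]
          linear_combination (-(w 4)) * r4
        · simp [pt]
          linear_combination (-(w 5)) * r5
        · simp [pt]
          linear_combination (-(w 6)) * r6
      rw [key]
      exact add_mem (add_mem (add_mem (add_mem (add_mem (Submodule.smul_mem _ _ d1)
        (Submodule.smul_mem _ _ d2)) (Submodule.smul_mem _ _ d3)) (Submodule.smul_mem _ _ d4))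
        (Submodule.smul_mem _ _ d5)) (Submodule.smul_mem _ _ d6)
  unfold dim
  rw [hspan]
  have := finrank_ker_of_ne_zero (gR_ne_zero i)
  omega

lemma isFacet_last (i : Fin 22) (hi : 14 ≤ i.val) : IsFacet P (tight gR bR i) := by
  obtain ⟨k, hk⟩ := exists_tight i
  refine ⟨⟨_, (mem_tight_iff i k).mpr hk⟩, ?_, ?_⟩
  · rw [P_eq]; exact tight_exposed i
  · rw [dim_last i hi, dim_P]

lemma exists_of_isFacet {F : Set (Fin 7 → ℝ)} (h : IsFacet P F) : ∃ i, F = tight gR bR i := by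
  obtain ⟨h1, h2, h3⟩ := h
  rw [dim_P] at h3
  rw [P_eq] at h2
  exact exists_eq_tight gR_ne_zero h2 h1 h3 (P_eq ▸ dim_P)

/-! ### No vertex-facet assignment -/

lemma first_incident : ∀ k : Fin 22, k.val < 16 → ∀ i : Fin 22, 14 ≤ i.val →
    dot (A i) (V k) = B i := by decide

lemma no_assignment : ¬ HasVertexFacetAssignment P := by
  rintro (⟨f, hf, hfn⟩ | ⟨g, hg, hgn⟩)
  · -- the 16 vertices of the prism only have 14 available facets
    have h1 : ∀ k : Fin 22, ∃ i : Fin 22, (f ⟨vR k, isVertex_vR k⟩).1 = tight gR bR i := fun k =>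
      exists_of_isFacet (f ⟨vR k, isVertex_vR k⟩).2
    choose c hc using h1
    have hc14 : ∀ k : Fin 16, (c (Fin.castLE (by norm_num) k)).val < 14 := by
      intro k
      by_contra hge
      push Not at hge
      have h2 := first_incident (Fin.castLE (by norm_num) k) k.2 _ hge
      have h3 := hfn ⟨vR (Fin.castLE (by norm_num) k), isVertex_vR _⟩
      rw [hc] at h3
      exact h3 ((mem_tight_iff _ _).mpr h2)
    have hinj : Function.Injective (fun k : Fin 16 =>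
        (⟨(c (Fin.castLE (by norm_num) k)).val, hc14 k⟩ : Fin 14)) := by
      intro k k' h
      simp only [Fin.mk.injEq] at h
      have h2 : c (Fin.castLE (by norm_num) k) = c (Fin.castLE (by norm_num) k') := Fin.ext h
      have h3 : f ⟨vR (Fin.castLE (by norm_num) k), isVertex_vR _⟩ =
          f ⟨vR (Fin.castLE (by norm_num) k'), isVertex_vR _⟩ := by
        apply Subtype.ext
        rw [hc, hc, h2]
      have h4 := vR_injective (Subtype.ext_iff.mp (hf h3))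
      exact Fin.castLE_injective _ h4
    have := Fintype.card_le_of_injective _ hinj
    simp at this
  · -- the 8 facets through the prism only have 6 available vertices
    have h1 : ∀ i : Fin 22, ∀ hi : 14 ≤ i.val, ∃ k : Fin 22,
        (g ⟨tight gR bR i, isFacet_last i hi⟩).1 = vR k := fun i hi =>
      exists_of_isVertex (g ⟨tight gR bR i, isFacet_last i hi⟩).2
    choose c hc using h1
    have hi14 : ∀ j : Fin 8, 14 ≤ (Fin.natAdd 14 j : Fin 22).val := by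
      intro j; simp
    have hc16 : ∀ j : Fin 8, 16 ≤ (c (Fin.natAdd 14 j) (hi14 j)).val := by
      intro j
      by_contra hlt
      push Not at hlt
      have h2 := first_incident _ hlt (Fin.natAdd 14 j) (hi14 j)
      have h3 := hgn ⟨tight gR bR (Fin.natAdd 14 j), isFacet_last _ (hi14 j)⟩
      rw [hc _ (hi14 j)] at h3
      exact h3 ((mem_tight_iff _ _).mpr h2)
    have hinj : Function.Injective (fun j : Fin 8 =>
        (⟨(c (Fin.natAdd 14 j) (hi14 j)).val - 16, by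
          have := (c (Fin.natAdd 14 j) (hi14 j)).2
          have := hc16 j
          omega⟩ : Fin 6)) := by
      intro j j' h
      simp only [Fin.mk.injEq] at h
      have h2 : c (Fin.natAdd 14 j) (hi14 j) = c (Fin.natAdd 14 j') (hi14 j') := by
        apply Fin.ext
        have := hc16 j
        have := hc16 j'
        omega
      have h3 : g ⟨tight gR bR (Fin.natAdd 14 j), isFacet_last _ (hi14 j)⟩ =
          g ⟨tight gR bR (Fin.natAdd 14 j'), isFacet_last _ (hi14 j')⟩ := by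
        apply Subtype.ext
        rw [hc _ (hi14 j), hc _ (hi14 j'), h2]
      have h4 := Subtype.ext_iff.mp (hg h3)
      have h5 := tight_le (le_of_eq h4)
      exact Fin.natAdd_injective _ _ h5
    have := Fintype.card_le_of_injective _ hinj
    simp at this

/-! ### Not a free join -/

/-- Intermediate vertex and facets in the connectivity argument. -/
def mid : Fin 22 → Fin 22 :=
  ![0, 0, 0, 0, 0, 0, 0, 0, 0, 0, 0, 0, 0, 0, 0, 0, 1, 1, 0, 0, 0, 0]
/-- First facet in the connectivity argument. -/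
def fac : Fin 22 → Fin 22 :=
  ![1, 1, 1, 1, 1, 1, 2, 2, 2, 2, 1, 1, 1, 1, 1, 1, 9, 8, 12, 10, 11, 10]

lemma connect : ∀ k : Fin 22, dot (A (fac k)) (V k) ≠ B (fac k) ∧
    dot (A (fac k)) (V (mid k)) ≠ B (fac k) ∧ dot (A 1) (V (mid k)) ≠ B 1 ∧
    dot (A 1) (V 0) ≠ B 1 := by decide

lemma tight_maximal_P (i : Fin 22) {G : Set (Fin 7 → ℝ)} (hG : IsExposed ℝ P G) (hne : G ≠ P)
    (hi : tight gR bR i ⊆ G) : G = tight gR bR i := by
  rw [P_eq] at hG hne
  exact tight_maximal (fun i j => tight_le) i hG hne hi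

lemma not_freeJoin : ¬ IsFreeJoin P := by
  rintro ⟨n, Q, P₁, P₂, ⟨hP₁, hP₂, hn₁, hn₂, hdim, rfl⟩, ⟨φ⟩⟩
  have facts := join_facts hP₁ hP₂ hn₁ hn₂ hdim
  set Q := convexHull ℝ (P₁ ∪ P₂) with hQ
  -- bottom and top elements
  have hexpE : IsExposed ℝ P (∅ : Set (Fin 7 → ℝ)) := isExposed_empty
  have hexpE' : IsExposed ℝ Q (∅ : Set (Fin n → ℝ)) := isExposed_empty
  have hPexp : IsExposed ℝ P P := IsExposed.refl P
  have hQexp : IsExposed ℝ Q Q := IsExposed.refl Q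
  have φ_bot : ∀ a : Faces P, (φ a).1 = ∅ → a.1 = ∅ := by
    intro a ha
    have h1 : φ a ≤ φ ⟨∅, hexpE⟩ := by
      show (φ a).1 ⊆ _
      rw [ha]; exact empty_subset _
    have h2 : a.1 ⊆ ∅ := φ.le_iff_le.mp h1
    exact subset_empty_iff.mp h2
  have φs_bot : ∀ a : Faces Q, (φ.symm a).1 = ∅ → a.1 = ∅ := by
    intro a ha
    have h1 : φ.symm a ≤ φ.symm ⟨∅, hexpE'⟩ := by
      show (φ.symm a).1 ⊆ _
      rw [ha]; exact empty_subset _
    have h2 : a.1 ⊆ ∅ := φ.symm.le_iff_le.mp h1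
    exact subset_empty_iff.mp h2
  have φ_top : ∀ a : Faces P, (φ a).1 = Q → a.1 = P := by
    intro a ha
    have h1 : φ ⟨P, hPexp⟩ ≤ φ a := by
      show (φ ⟨P, hPexp⟩).1 ⊆ (φ a).1
      rw [ha]; exact (φ ⟨P, hPexp⟩).2.subset
    have h2 : P ⊆ a.1 := φ.le_iff_le.mp h1
    exact Subset.antisymm a.2.subset h2
  have φs_top : ∀ a : Faces Q, (φ.symm a).1 = P → a.1 = Q := by
    intro a ha
    have h1 : φ.symm ⟨Q, hQexp⟩ ≤ φ.symm a := by
      show (φ.symm ⟨Q, hQexp⟩).1 ⊆ (φ.symm a).1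
      rw [ha]; exact (φ.symm ⟨Q, hQexp⟩).2.subset
    have h2 : Q ⊆ a.1 := φ.symm.le_iff_le.mp h1
    exact Subset.antisymm a.2.subset h2
  set F₁ : Faces P := φ.symm ⟨P₁, facts.exp₁⟩ with hF₁
  set F₂ : Faces P := φ.symm ⟨P₂, facts.exp₂⟩ with hF₂
  have hφF₁ : φ F₁ = ⟨P₁, facts.exp₁⟩ := φ.apply_symm_apply _
  have hφF₂ : φ F₂ = ⟨P₂, facts.exp₂⟩ := φ.apply_symm_apply _
  -- every vertex lies in `F₁` or in `F₂`
  have hvert : ∀ k : Fin 22, vR k ∈ F₁.1 ∨ vR k ∈ F₂.1 := by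
    intro k
    let a : Faces P := ⟨{vR k}, isVertex_vR k⟩
    have hane : (φ a).1.Nonempty := by
      rw [nonempty_iff_ne_empty]
      intro h
      have := φ_bot a h
      exact (singleton_ne_empty (vR k)) this
    have hatom := facts.atom (φ a).1 (φ a).2 hane (by
      intro H hH hHne hHsub
      have h1 : φ.symm ⟨H, hH⟩ ≤ a := by
        rw [OrderIso.symm_apply_le]; exact hHsub
      have h2 : (φ.symm ⟨H, hH⟩).1 ⊆ {vR k} := h1
      rcases subset_singleton_iff_eq.mp h2 with h3 | h3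
      · have h4 : H = ∅ := φs_bot ⟨H, hH⟩ h3
        rw [h4] at hHne
        exact absurd hHne not_nonempty_empty
      · have h4 : φ.symm ⟨H, hH⟩ = a := Subtype.ext h3
        have h5 : φ a = ⟨H, hH⟩ := by rw [← h4, OrderIso.apply_symm_apply]
        rw [h5])
    rcases hatom with h | h
    · left
      have h1 : φ a ≤ ⟨P₁, facts.exp₁⟩ := h
      have h2 : a ≤ F₁ := by rw [hF₁, OrderIso.le_symm_apply]; exact h1
      exact h2 (mem_singleton _)
    · right
      have h1 : φ a ≤ ⟨P₂, facts.exp₂⟩ := h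
      have h2 : a ≤ F₂ := by rw [hF₂, OrderIso.le_symm_apply]; exact h1
      exact h2 (mem_singleton _)
  -- every facet contains `F₁` or `F₂`
  have hfac : ∀ i : Fin 22, F₁.1 ⊆ tight gR bR i ∨ F₂.1 ⊆ tight gR bR i := by
    intro i
    have hexp : IsExposed ℝ P (tight gR bR i) := by rw [P_eq]; exact tight_exposed i
    let a : Faces P := ⟨tight gR bR i, hexp⟩
    have hcoatom := facts.coatom (φ a).1 (φ a).2 (fun h => tight_ne i (φ_top a h)) (by
      intro H hH hHne hsub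
      have h1 : a ≤ φ.symm ⟨H, hH⟩ := by
        rw [OrderIso.le_symm_apply]; exact hsub
      have h2 : (φ.symm ⟨H, hH⟩).1 ≠ P := fun h => hHne (φs_top ⟨H, hH⟩ h)
      have h3 : (φ.symm ⟨H, hH⟩).1 = tight gR bR i :=
        tight_maximal_P i (φ.symm ⟨H, hH⟩).2 h2 h1
      have h4 : φ.symm ⟨H, hH⟩ = a := Subtype.ext h3
      have h5 : φ a = ⟨H, hH⟩ := by rw [← h4, OrderIso.apply_symm_apply]
      rw [h5])
    rcases hcoatom with h | h
    · left
      have h1 : (⟨P₁, facts.exp₁⟩ : Faces Q) ≤ φ a := h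
      have h2 : F₁ ≤ a := by rw [hF₁, OrderIso.symm_apply_le]; exact h1
      exact h2
    · right
      have h1 : (⟨P₂, facts.exp₂⟩ : Faces Q) ≤ φ a := h
      have h2 : F₂ ≤ a := by rw [hF₂, OrderIso.symm_apply_le]; exact h1
      exact h2
  -- two vertices missed by a common facet are in the same part
  have hstep : ∀ i k k' : Fin 22, dot (A i) (V k) ≠ B i → dot (A i) (V k') ≠ B i →
      (vR k ∈ F₁.1 ↔ vR k' ∈ F₁.1) := by
    intro i k k' h h'
    have g1 : vR k ∉ tight gR bR i := fun e => h ((mem_tight_iff i k).mp e)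
    have g2 : vR k' ∉ tight gR bR i := fun e => h' ((mem_tight_iff i k').mp e)
    rcases hfac i with hi | hi
    · exact ⟨fun e => absurd (hi e) g1, fun e => absurd (hi e) g2⟩
    · have e1 : vR k ∉ F₂.1 := fun e => g1 (hi e)
      have e2 : vR k' ∉ F₂.1 := fun e => g2 (hi e)
      exact ⟨fun _ => (hvert k').resolve_right e2, fun _ => (hvert k).resolve_right e1⟩
  have hall : ∀ k : Fin 22, (vR k ∈ F₁.1 ↔ vR 0 ∈ F₁.1) := by
    intro k
    obtain ⟨h1, h2, h3, h4⟩ := connect k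
    exact (hstep (fac k) k (mid k) h1 h2).trans (hstep 1 (mid k) 0 h3 h4)
  have hfull : ∀ F : Faces P, (∀ k, vR k ∈ F.1) → F.1 = P := by
    intro F hF
    apply Subset.antisymm F.2.subset
    have hc : Convex ℝ F.1 := F.2.convex convex_P
    apply convexHull_min _ hc
    rintro _ ⟨k, rfl⟩
    exact hF k
  by_cases h0 : vR 0 ∈ F₁.1
  · have := hfull F₁ fun k => (hall k).mpr h0
    exact facts.ne₁ (φs_top _ this)
  · have h2 : ∀ k, vR k ∈ F₂.1 := fun k =>
      (hvert k).resolve_left fun e => h0 ((hall k).mp e)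
    exact facts.ne₂ (φs_top _ (hfull F₂ h2))

/-- **Positive answer to Q1.**  There is a seven-dimensional polytope in `ℝ^7` which has no
vertex-facet assignment and which is not a free join. -/
theorem result : ∃ P : Set (Fin 7 → ℝ), IsPolytope P ∧ affineSpan ℝ P = ⊤ ∧
    ¬ HasVertexFacetAssignment P ∧ ¬ IsFreeJoin P :=
  ⟨P, isPolytope_P, affineSpan_P, no_assignment, not_freeJoin⟩

end Pool.Agent.Results.MP_7ca032_co.NonJoinPolytope
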